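import Mathlib

/-!
A Lipschitz homeomorphism of a nonseparable Hilbert space onto itself which is
Gateaux differentiable at no point.
-/

open Filter Topology

namespace Pool.Agent.Results.MP_714461_an.NowhereGateaux

/-- `phi` is Gateaux differentiable at `x0`: there is a bounded linear operator `T` such that
`(phi (x0 + t h) - phi x0) / t` tends to `T h` in norm, as `t → 0`, for every `h`. -/
def GateauxDifferentiableAt {X Y : Type} [NormedAddCommGroup X] [NormedSpace ℝ X]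
    [NormedAddCommGroup Y] [NormedSpace ℝ Y] (phi : X → Y) (x0 : X) : Prop :=
  ∃ T : X →L[ℝ] Y, ∀ h : X,
    Tendsto (fun t : ℝ => t⁻¹ • (phi (x0 + t • h) - phi x0)) (𝓝[≠] 0) (𝓝 (T h))

/-- A real normed space is reflexive: the canonical map into the bidual is onto. -/
def IsReflexive (X : Type) [NormedAddCommGroup X] [NormedSpace ℝ X] : Prop :=
  ∀ Phi : (X →L[ℝ] ℝ) →L[ℝ] ℝ, ∃ x : X, ∀ f : X →L[ℝ] ℝ, Phi f = f x

/-- `Z` is finitely representable in `X`: for every finite-dimensional subspace `F` of `Z` and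
every `e > 0` there is a linear map `T : F → X` with
`(1 - e) ‖z‖ ≤ ‖T z‖ ≤ (1 + e) ‖z‖` for all `z ∈ F`. -/
def FinitelyRepresentable (Z X : Type) [NormedAddCommGroup Z] [NormedSpace ℝ Z]
    [NormedAddCommGroup X] [NormedSpace ℝ X] : Prop :=
  ∀ F : Submodule ℝ Z, FiniteDimensional ℝ F → ∀ e : ℝ, 0 < e →
    ∃ T : F →ₗ[ℝ] X, ∀ z : F, (1 - e) * ‖z‖ ≤ ‖T z‖ ∧ ‖T z‖ ≤ (1 + e) * ‖z‖

/-- `X` is superreflexive: every Banach space finitely representable in `X` is reflexive. -/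
def IsSuperreflexive (X : Type) [NormedAddCommGroup X] [NormedSpace ℝ X] : Prop :=
  ∀ (Z : Type) (_ : NormedAddCommGroup Z) (_ : NormedSpace ℝ Z), CompleteSpace Z →
    FinitelyRepresentable Z X → IsReflexive Z

/-! ### Hilbert spaces are superreflexive -/

lemma reflexive_of_inner (Z : Type) [NormedAddCommGroup Z] [InnerProductSpace ℝ Z]
    [CompleteSpace Z] : IsReflexive Z := by
  intro Phi
  let J : Z →L[ℝ] (Z →L[ℝ] ℝ) := innerSL ℝ
  obtain ⟨z, hz⟩ := (InnerProductSpace.toDual ℝ Z).surjective (Phi.comp J)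
  refine ⟨z, fun f => ?_⟩
  obtain ⟨y, rfl⟩ := (InnerProductSpace.toDual ℝ Z).surjective f
  have h1 : Phi (J y) = inner ℝ z y := by
    have := congrArg (fun g : Z →L[ℝ] ℝ => g y) hz
    simpa [InnerProductSpace.toDual_apply_apply] using this.symm
  have h2 : J y = InnerProductSpace.toDual ℝ Z y := by
    ext w
    rw [InnerProductSpace.toDual_apply_apply]
    rfl
  rw [← h2, h1, h2, InnerProductSpace.toDual_apply_apply, real_inner_comm]

lemma parallelogram_of_fr {Z X : Type} [NormedAddCommGroup Z] [NormedSpace ℝ Z]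
    [NormedAddCommGroup X] [InnerProductSpace ℝ X] (h : FinitelyRepresentable Z X) (x y : Z) :
    ‖x + y‖ * ‖x + y‖ + ‖x - y‖ * ‖x - y‖ = 2 * (‖x‖ * ‖x‖ + ‖y‖ * ‖y‖) := by
  let F : Submodule ℝ Z := Submodule.span ℝ {x, y}
  have hF : FiniteDimensional ℝ F := by
    apply FiniteDimensional.span_of_finite
    simp
  let x' : F := ⟨x, Submodule.subset_span (by simp)⟩
  let y' : F := ⟨y, Submodule.subset_span (by simp)⟩
  have key : ∀ e : ℝ, 0 < e → e < 1 →
      (1 - e) ^ 2 * (‖x + y‖ * ‖x + y‖ + ‖x - y‖ * ‖x - y‖)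
        ≤ (1 + e) ^ 2 * (2 * (‖x‖ * ‖x‖ + ‖y‖ * ‖y‖)) ∧
      (1 - e) ^ 2 * (2 * (‖x‖ * ‖x‖ + ‖y‖ * ‖y‖)) ≤
      (1 + e) ^ 2 * (‖x + y‖ * ‖x + y‖ + ‖x - y‖ * ‖x - y‖) := by
    intro e he he1
    obtain ⟨T, hT⟩ := h F hF e he
    have hp := parallelogram_law_with_norm ℝ (T x') (T y')
    have hadd : T x' + T y' = T (x' + y') := by simp
    have hsub : T x' - T y' = T (x' - y') := by simp
    rw [hadd, hsub] at hp
    have n1 : ‖x' + y'‖ = ‖x + y‖ := rfl
    have n2 : ‖x' - y'‖ = ‖x - y‖ := rfl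
    have n3 : ‖x'‖ = ‖x‖ := rfl
    have n4 : ‖y'‖ = ‖y‖ := rfl
    have a1 := hT (x' + y')
    have a2 := hT (x' - y')
    have a3 := hT x'
    have a4 := hT y'
    rw [n1] at a1
    rw [n2] at a2
    rw [n3] at a3
    rw [n4] at a4
    have sq : ∀ (a b : ℝ), 0 ≤ a → (1 - e) * a ≤ b → b ≤ (1 + e) * a →
        (1 - e) ^ 2 * (a * a) ≤ b * b ∧ b * b ≤ (1 + e) ^ 2 * (a * a) := by
      intro a b ha h1 h2
      have h0 : 0 ≤ (1 - e) * a := mul_nonneg (by linarith) ha
      have hb : 0 ≤ b := h0.trans h1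
      constructor
      · nlinarith [mul_self_le_mul_self h0 h1]
      · nlinarith [mul_self_le_mul_self hb h2]
    have b1 := sq _ _ (norm_nonneg _) a1.1 a1.2
    have b2 := sq _ _ (norm_nonneg _) a2.1 a2.2
    have b3 := sq _ _ (norm_nonneg _) a3.1 a3.2
    have b4 := sq _ _ (norm_nonneg _) a4.1 a4.2
    constructor <;> nlinarith [b1.1, b1.2, b2.1, b2.2, b3.1, b3.2, b4.1, b4.2]
  have hA : Tendsto (fun e : ℝ => (1 - e) ^ 2 * (‖x + y‖ * ‖x + y‖ + ‖x - y‖ * ‖x - y‖))
      (𝓝[>] 0) (𝓝 ((1 - 0) ^ 2 * (‖x + y‖ * ‖x + y‖ + ‖x - y‖ * ‖x - y‖))) := by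
    apply Tendsto.mono_left _ nhdsWithin_le_nhds
    apply Continuous.tendsto
    fun_prop
  have hB : Tendsto (fun e : ℝ => (1 + e) ^ 2 * (2 * (‖x‖ * ‖x‖ + ‖y‖ * ‖y‖)))
      (𝓝[>] 0) (𝓝 ((1 + 0) ^ 2 * (2 * (‖x‖ * ‖x‖ + ‖y‖ * ‖y‖)))) := by
    apply Tendsto.mono_left _ nhdsWithin_le_nhds
    apply Continuous.tendsto
    fun_prop
  have hC : Tendsto (fun e : ℝ => (1 + e) ^ 2 * (‖x + y‖ * ‖x + y‖ + ‖x - y‖ * ‖x - y‖))
      (𝓝[>] 0) (𝓝 ((1 + 0) ^ 2 * (‖x + y‖ * ‖x + y‖ + ‖x - y‖ * ‖x - y‖))) := by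
    apply Tendsto.mono_left _ nhdsWithin_le_nhds
    apply Continuous.tendsto
    fun_prop
  have hD : Tendsto (fun e : ℝ => (1 - e) ^ 2 * (2 * (‖x‖ * ‖x‖ + ‖y‖ * ‖y‖)))
      (𝓝[>] 0) (𝓝 ((1 - 0) ^ 2 * (2 * (‖x‖ * ‖x‖ + ‖y‖ * ‖y‖)))) := by
    apply Tendsto.mono_left _ nhdsWithin_le_nhds
    apply Continuous.tendsto
    fun_prop
  have hev : ∀ᶠ e : ℝ in 𝓝[>] 0, 0 < e ∧ e < 1 := by
    have : Set.Ioo (0:ℝ) 1 ∈ 𝓝[>] (0:ℝ) := Ioo_mem_nhdsGT (by norm_num)
    filter_upwards [this] with e he using he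
  have e1 := le_of_tendsto_of_tendsto hA hB (hev.mono fun e he => (key e he.1 he.2).1)
  have e2 := le_of_tendsto_of_tendsto hD hC (hev.mono fun e he => (key e he.1 he.2).2)
  simp only [sub_zero, add_zero, one_pow, one_mul] at e1 e2
  exact le_antisymm e1 e2

lemma superreflexive_of_inner (X : Type) [NormedAddCommGroup X] [InnerProductSpace ℝ X] :
    IsSuperreflexive X := by
  intro Z _ _ hZ hfr
  let _ : InnerProductSpace ℝ Z := InnerProductSpace.ofNorm ℝ (fun x y => parallelogram_of_fr hfr x y)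
  exact reflexive_of_inner Z

/-! ### The space and the map -/

/-- The nonseparable Hilbert space of square summable functions on `ℝ`. -/
abbrev H : Type := lp (fun _ : ℝ => ℝ) 2

/-- `g t = t` for `t ≥ 0` and `g t = 2 t` for `t < 0`. -/
noncomputable def g (t : ℝ) : ℝ := if 0 ≤ t then t else 2 * t

/-- the inverse of `g`. -/
noncomputable def gi (t : ℝ) : ℝ := if 0 ≤ t then t else t / 2

lemma g_zero : g 0 = 0 := by simp [g]
lemma gi_zero : gi 0 = 0 := by simp [gi]

lemma gi_g (t : ℝ) : gi (g t) = t := by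
  unfold g gi
  by_cases h : 0 ≤ t
  · simp [h]
  · have h2 : ¬ (0 ≤ 2 * t) := by
      push Not at h ⊢
      linarith
    rw [if_neg h, if_neg h2]
    ring

lemma g_gi (t : ℝ) : g (gi t) = t := by
  unfold g gi
  by_cases h : 0 ≤ t
  · simp [h]
  · have h2 : ¬ (0 ≤ t / 2) := by
      push Not at h ⊢
      linarith
    rw [if_neg h, if_neg h2]
    ring

lemma g_lip (s t : ℝ) : |g s - g t| ≤ 2 * |s - t| := by
  unfold g
  split_ifs with h1 h2 h2
  · linarith [abs_nonneg (s - t)]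
  · rw [abs_le]
    constructor <;> nlinarith [le_abs_self (s - t), neg_abs_le (s - t)]
  · rw [abs_le]
    constructor <;> nlinarith [le_abs_self (s - t), neg_abs_le (s - t)]
  · rw [show 2 * s - 2 * t = 2 * (s - t) by ring, abs_mul, abs_of_pos (by norm_num : (0:ℝ) < 2)]

lemma gi_lip (s t : ℝ) : |gi s - gi t| ≤ 2 * |s - t| := by
  unfold gi
  split_ifs with h1 h2 h2
  · linarith [abs_nonneg (s - t)]
  · rw [abs_le]
    constructor <;> nlinarith [le_abs_self (s - t), neg_abs_le (s - t)]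
  · rw [abs_le]
    constructor <;> nlinarith [le_abs_self (s - t), neg_abs_le (s - t)]
  · rw [show s / 2 - t / 2 = (1/2) * (s - t) by ring, abs_mul, abs_of_pos (by norm_num : (0:ℝ) < 1/2)]
    linarith [abs_nonneg (s - t)]

lemma memlp_comp {f : ℝ → ℝ} (h0 : f 0 = 0) (hf : ∀ s t, |f s - f t| ≤ 2 * |s - t|) (x : H) :
    Memℓp (fun i : ℝ => f (x i)) 2 := by
  have hx : Memℓp (fun i : ℝ => 2 * x i) 2 := by
    exact (lp.memℓp x).const_smul (2:ℝ)
  rw [memℓp_gen_iff (by norm_num)] at hx ⊢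
  refine Summable.of_nonneg_of_le (fun i => by positivity) (fun i => ?_) hx
  apply Real.rpow_le_rpow (norm_nonneg _) _ (by norm_num)
  have := hf (x i) 0
  simpa [h0, abs_mul] using this

/-- coordinatewise application of a function. -/
noncomputable def app (f : ℝ → ℝ) (h0 : f 0 = 0) (hf : ∀ s t, |f s - f t| ≤ 2 * |s - t|) (x : H) :
    H := ⟨fun i : ℝ => f (x i), memlp_comp h0 hf x⟩

lemma app_apply (f : ℝ → ℝ) (h0 : f 0 = 0) (hf : ∀ s t, |f s - f t| ≤ 2 * |s - t|) (x : H)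
    (i : ℝ) : (app f h0 hf x) i = f (x i) := rfl

lemma app_lip (f : ℝ → ℝ) (h0 : f 0 = 0) (hf : ∀ s t, |f s - f t| ≤ 2 * |s - t|) :
    LipschitzWith 2 (app f h0 hf) := by
  apply LipschitzWith.of_dist_le_mul
  intro x y
  rw [dist_eq_norm, dist_eq_norm]
  have h2 : ((2 : NNReal) : ℝ) * ‖x - y‖ = ‖(2:ℝ) • (x - y)‖ := by
    rw [norm_smul]; simp
  rw [h2]
  apply lp.norm_mono (by norm_num)
  intro i
  have h1 := hf (x i) (y i)
  have e1 : ((app f h0 hf x - app f h0 hf y : H) : ℝ → ℝ) i = f (x i) - f (y i) := rfl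
  have e2 : (((2:ℝ) • (x - y) : H) : ℝ → ℝ) i = 2 * (x i - y i) := rfl
  rw [e1, e2, Real.norm_eq_abs, Real.norm_eq_abs, abs_mul, abs_of_pos (by norm_num : (0:ℝ) < 2)]
  exact h1

/-- the homeomorphism. -/
noncomputable def phi : H ≃ H where
  toFun := app g g_zero g_lip
  invFun := app gi gi_zero gi_lip
  left_inv := fun x => by
    apply lp.ext
    funext i
    rw [app_apply, app_apply, gi_g]
  right_inv := fun x => by
    apply lp.ext
    funext i
    rw [app_apply, app_apply, g_gi]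

lemma exists_zero_coord (x : H) : ∃ i : ℝ, x i = 0 := by
  by_contra hcon
  push Not at hcon
  have hs : Summable (fun i : ℝ => ‖x i‖ ^ ((2 : ENNReal).toReal)) :=
    (lp.memℓp x).summable (by norm_num)
  have hc := hs.countable_support
  have : Function.support (fun i : ℝ => ‖x i‖ ^ ((2 : ENNReal).toReal)) = Set.univ := by
    ext i
    simp only [Function.mem_support, Set.mem_univ, iff_true]
    have := hcon i
    positivity
  rw [this] at hc
  exact Set.not_countable_univ hc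

lemma not_gateaux (x : H) : ¬ GateauxDifferentiableAt (phi : H → H) x := by
  rintro ⟨T, hT⟩
  obtain ⟨i, hi⟩ := exists_zero_coord x
  have h := hT (lp.single 2 i (1:ℝ))
  have hcoord : Tendsto (fun t : ℝ => (t⁻¹ • (phi (x + t • (lp.single 2 i (1:ℝ) : H)) - phi x)) i)
      (𝓝[≠] 0) (𝓝 ((T (lp.single 2 i (1:ℝ))) i)) := by
    have hc : Continuous (fun y : H => y i) := by
      have : LipschitzWith 1 (fun y : H => y i) := by
        apply LipschitzWith.of_dist_le_mul
        intro y z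
        rw [dist_eq_norm, dist_eq_norm]
        have := lp.norm_apply_le_norm (by norm_num : (2:ENNReal) ≠ 0) (y - z) i
        simpa using this
      exact this.continuous
    exact (hc.tendsto _).comp h
  have hval : ∀ t : ℝ, (t⁻¹ • (phi (x + t • (lp.single 2 i (1:ℝ) : H)) - phi x)) i = t⁻¹ * g t := by
    intro t
    have e1 : (phi (x + t • (lp.single 2 i (1:ℝ) : H))) i = g ((x + t • (lp.single 2 i (1:ℝ) : H)) i) := rfl
    have e2 : (phi x) i = g (x i) := rfl
    have e3 : (x + t • (lp.single 2 i (1:ℝ) : H)) i = t := by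
      rw [lp.coeFn_add, lp.coeFn_smul]
      simp [hi]
    rw [lp.coeFn_smul, Pi.smul_apply, lp.coeFn_sub, Pi.sub_apply, e1, e2, e3, hi, g_zero]
    simp
  simp_rw [hval] at hcoord
  have hR : Tendsto (fun t : ℝ => t⁻¹ * g t) (𝓝[>] 0) (𝓝 1) := by
    apply tendsto_const_nhds.congr'
    filter_upwards [self_mem_nhdsWithin] with t ht
    have ht' : (0:ℝ) < t := ht
    rw [g, if_pos ht'.le, inv_mul_cancel₀ ht'.ne']
  have hL : Tendsto (fun t : ℝ => t⁻¹ * g t) (𝓝[<] 0) (𝓝 2) := by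
    apply tendsto_const_nhds.congr'
    filter_upwards [self_mem_nhdsWithin] with t ht
    have ht' : t < (0:ℝ) := ht
    rw [g, if_neg (not_le.mpr ht'), mul_left_comm, inv_mul_cancel₀ ht'.ne, mul_one]
  have a1 := tendsto_nhds_unique hR (hcoord.mono_left (nhdsWithin_mono _ (fun t ht => ne_of_gt ht)))
  have a2 := tendsto_nhds_unique hL (hcoord.mono_left (nhdsWithin_mono _ (fun t ht => ne_of_lt ht)))
  rw [← a1] at a2
  norm_num at a2

lemma not_separable : ¬ TopologicalSpace.SeparableSpace H := by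
  intro hsep
  have hdist : ∀ i j : ℝ, i ≠ j → 1 ≤ dist (lp.single 2 i (1:ℝ) : H) (lp.single 2 j (1:ℝ)) := by
    intro i j hij
    rw [dist_eq_norm]
    have := lp.norm_apply_le_norm (by norm_num : (2:ENNReal) ≠ 0)
      ((lp.single 2 i (1:ℝ) : H) - lp.single 2 j (1:ℝ)) i
    rw [lp.coeFn_sub, Pi.sub_apply] at this
    simpa [Pi.single_apply, hij, Ne.symm hij] using this
  have hdisj : (Set.univ : Set ℝ).PairwiseDisjoint
      (fun i : ℝ => Metric.ball (lp.single 2 i (1:ℝ) : H) (1/2)) := by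
    intro i _ j _ hij
    apply Metric.ball_disjoint_ball
    have := hdist i j hij
    linarith
  have hcount := hdisj.countable_of_isOpen (fun i _ => Metric.isOpen_ball)
    (fun i _ => Metric.nonempty_ball.mpr (by norm_num))
  exact Set.not_countable_univ hcount

/-- There is a Lipschitz homeomorphism of a nonseparable superreflexive Banach space onto itself
which is Gateaux differentiable at no point. -/
theorem result : ∃ (X : Type) (_ : NormedAddCommGroup X) (_ : NormedSpace ℝ X),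
    CompleteSpace X ∧ ¬ TopologicalSpace.SeparableSpace X ∧
    IsReflexive X ∧ IsSuperreflexive X ∧ UniformConvexSpace X ∧
    ∃ (phi : X ≃ X) (K : NNReal), LipschitzWith K phi ∧ LipschitzWith K phi.symm ∧
      ∀ x0 : X, ¬ GateauxDifferentiableAt (phi : X → X) x0 := by
  refine ⟨H, inferInstance, inferInstance, inferInstance, not_separable, reflexive_of_inner H,
    superreflexive_of_inner H, inferInstance, phi, 2, app_lip g g_zero g_lip,
    app_lip gi gi_zero gi_lip, not_gateaux⟩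

end Pool.Agent.Results.MP_714461_an.NowhereGateaux
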